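import Mathlib

namespace Pool.Agent.Results.MP_1b3940_lc.Yes
open Filter Nat.Partrec

def Acceptable (φ : ℕ → ℕ →. ℕ) : Prop :=
  Partrec₂ φ ∧ ∀ ψ : ℕ → ℕ →. ℕ, Partrec₂ ψ → ∃ g : ℕ → ℕ, Computable g ∧ ∀ e, φ (g e) = ψ e

abbrev Datum := Option (ℕ × Bool)

def PosInfo (I : ℕ → Datum) : Set ℕ := {x | ∃ n, I n = some (x, true)}
def NegInfo (I : ℕ → Datum) : Set ℕ := {x | ∃ n, I n = some (x, false)}
def seg (I : ℕ → Datum) (n : ℕ) : List Datum := (List.range n).map I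

def Identifies (φ : ℕ → ℕ →. ℕ) (i : ℕ) (M : List Datum → ℕ) (L : Set ℕ) : Prop :=
  ∃ S : Finset ℕ, (S : Set ℕ) ⊆ Lᶜ ∧ S.card ≤ i ∧ ∀ I : ℕ → Datum, PosInfo I = L → (S : Set ℕ) ⊆ NegInfo I →
    NegInfo I ⊆ Lᶜ → ∀ᶠ n in atTop, (symmDiff (φ (M (seg I n))).Dom L).Finite

section
variable {α β : Type} [Primcodable α] [Primcodable β]

theorem pall {l : α → List β} (hl : Primrec l) {R : α → β → Prop} (hR : PrimrecPred fun p : α × β => R p.1 p.2) :
    PrimrecPred fun a => ∀ b ∈ l a, R a b :=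
  (PrimrecRel.forall_mem_list (R := fun b a => R a b) (PrimrecRel.swap (r := R) hR)).comp hl Primrec.id

theorem pex {l : α → List β} (hl : Primrec l) {R : α → β → Prop} (hR : PrimrecPred fun p : α × β => R p.1 p.2) :
    PrimrecPred fun a => ∃ b ∈ l a, R a b :=
  (PrimrecRel.exists_mem_list (R := fun b a => R a b) (PrimrecRel.swap (r := R) hR)).comp hl Primrec.id

theorem pimp {p q : α → Prop} (hp : PrimrecPred p) (hq : PrimrecPred q) : PrimrecPred fun a => p a → q a :=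
  (hp.not.or hq).of_eq fun _ => imp_iff_not_or.symm
end

def val (d : Datum) : ℕ := (d.getD (0, false)).1

theorem val_pr : Primrec val := Primrec.fst.comp (Primrec.option_getD.comp Primrec.id (Primrec.const _))

variable (T : ℕ → ℕ → ℕ → Prop)

def Sub (σ : List Datum) (t e : ℕ) : Prop := ∀ d ∈ σ, d = some (val d, true) → T t e (val d)
def In (σ : List Datum) (t y z : ℕ) : Prop := ∀ e ∈ List.range y, Sub T σ t e → T t e z
def Bad (σ : List Datum) (t y : ℕ) : Prop := ∃ d ∈ σ, d = some (val d, false) ∧ In T σ t y (val d)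
def Q (σ : List Datum) (z t : ℕ) : Prop := z ≤ t ∧ ∀ e ∈ List.range t, Bad T σ t e → Sub T σ t e → T t e z

theorem Q_pr (hT : PrimrecPred fun p : ℕ × ℕ × ℕ => T p.1 p.2.1 p.2.2) :
    PrimrecPred fun p : (List Datum × ℕ) × ℕ => Q T p.1.1 p.1.2 p.2 := by
  open Primrec in
  have sel : ∀ b : Bool, PrimrecPred fun d : Datum => d = some (val d, b) := fun b =>
    Primrec.eq.comp Primrec.id (option_some.comp (val_pr.pair (const b)))
  open Primrec in
  have h1 : PrimrecPred fun p : List Datum × ℕ × ℕ => Sub T p.1 p.2.1 p.2.2 :=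
    pall fst (pimp ((sel true).comp snd)
      (hT.comp ((fst.comp (snd.comp fst)).pair ((snd.comp (snd.comp fst)).pair (val_pr.comp snd)))))
  open Primrec in
  have h2 : PrimrecPred fun p : (List Datum × ℕ) × ℕ × ℕ => In T p.1.1 p.1.2 p.2.1 p.2.2 :=
    pall (list_range.comp (fst.comp snd))
      (pimp (h1.comp ((fst.comp (fst.comp fst)).pair ((snd.comp (fst.comp fst)).pair snd)))
        (hT.comp ((snd.comp (fst.comp fst)).pair (snd.pair (snd.comp (snd.comp fst))))))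
  open Primrec in
  have h3 : PrimrecPred fun p : List Datum × ℕ × ℕ => Bad T p.1 p.2.1 p.2.2 :=
    pex fst (((sel false).comp snd).and (h2.comp (((fst.comp fst).pair (fst.comp (snd.comp fst))).pair
      ((snd.comp (snd.comp fst)).pair (val_pr.comp snd)))))
  open Primrec in
  exact (nat_le.comp (snd.comp fst) snd).and (pall (list_range.comp snd)
    (pimp (h3.comp ((fst.comp (fst.comp fst)).pair ((snd.comp fst).pair snd)))
      (pimp (h1.comp ((fst.comp (fst.comp fst)).pair ((snd.comp fst).pair snd)))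
        (hT.comp ((snd.comp fst).pair (snd.pair (snd.comp (fst.comp fst))))))))

theorem sub_iff {σ t e} : Sub T σ t e ↔ ∀ x, some (x, true) ∈ σ → T t e x :=
  ⟨fun h _ hx => h _ hx rfl, fun h _ hd e => h _ (e ▸ hd)⟩

theorem bad_iff {σ t y} : Bad T σ t y ↔ ∃ x, some (x, false) ∈ σ ∧ In T σ t y x :=
  ⟨fun ⟨_, hd, e, h⟩ => ⟨_, e ▸ hd, h⟩, fun ⟨_, hx, h⟩ => ⟨_, hx, rfl, h⟩⟩

theorem core {W : ℕ → Set ℕ} (hW : ∀ e x, x ∈ W e ↔ ∃ t, T t e x) (mono : ∀ e x s t, s ≤ t → T s e x → T t e x)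
    (e₀ : ℕ) : ∃ S : Finset ℕ, (S : Set ℕ) ⊆ (W e₀)ᶜ ∧ S.card ≤ 1 ∧ ∀ I : ℕ → Datum, PosInfo I = W e₀ →
      (S : Set ℕ) ⊆ NegInfo I → NegInfo I ⊆ (W e₀)ᶜ →
      ∀ᶠ n in atTop, (symmDiff {z | ∃ t, Q T (seg I n) z t} (W e₀)).Finite := by
  classical
  set L := W e₀ with hL
  have ev : ∀ e x, x ∈ W e → ∀ᶠ t in atTop, T t e x := fun e x h => by
    obtain ⟨s, hs⟩ := (hW e x).1 h
    exact eventually_atTop.2 ⟨s, fun t ht => mono _ _ _ _ ht hs⟩
  have ex : ∃ y, ∀ z, (∀ e < y, L ⊆ W e → z ∈ W e) → z ∈ L := ⟨e₀ + 1, fun z h => h e₀ (by omega) subset_rfl⟩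
  set y := Nat.find ex
  have hy : ∀ z, (∀ e < y, L ⊆ W e → z ∈ W e) → z ∈ L := Nat.find_spec ex
  obtain ⟨S, S1, S2, S3⟩ : ∃ S : Finset ℕ, (S : Set ℕ) ⊆ Lᶜ ∧ S.card ≤ 1 ∧
      ∀ e < y, ∃ s ∈ S, ∀ e' < e, L ⊆ W e' → s ∈ W e' := by
    rcases Nat.eq_zero_or_pos y with h | h
    · exact ⟨∅, by simp, by simp, by omega⟩
    · have := Nat.find_min ex (show y - 1 < y by omega)
      push Not at this
      obtain ⟨s, h1, h2⟩ := this
      exact ⟨{s}, by simpa using h2, by simp, fun e he => ⟨s, by simp, fun e' h' => h1 e' (by omega)⟩⟩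
  have fin : ∀ {p : ℕ → ℕ → Prop}, (∀ e < y, ∀ᶠ t in atTop, p e t) → ∀ᶠ t in atTop, ∀ e < y, p e t :=
    fun h => (eventually_all_finite (Set.finite_Iio y)).2 h
  have evw : ∀ x, ∀ᶠ t in atTop, ∀ e < y, x ∈ W e → T t e x := fun x => fin fun e _ => by
    by_cases h : x ∈ W e
    · exact (ev e x h).mono fun _ a _ => a
    · simp [h]
  refine ⟨S, S1, S2, fun I hI hS hN => ?_⟩
  have ms : ∀ {d n}, d ∈ seg I n → ∃ m, I m = d := fun h => by
    obtain ⟨m, -, h⟩ := List.mem_map.1 h; exact ⟨m, h⟩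
  have evI : ∀ d, (∃ m, I m = d) → ∀ᶠ n in atTop, d ∈ seg I n := fun d ⟨m, h⟩ =>
    (eventually_gt_atTop m).mono fun n hn => List.mem_map.2 ⟨m, List.mem_range.2 hn, h⟩
  have i1 : ∀ᶠ n in atTop, ∀ e < y, ¬ L ⊆ W e → ∃ x, some (x, true) ∈ seg I n ∧ x ∉ W e := fin fun e _ => by
    by_cases h : L ⊆ W e
    · simp [h]
    · obtain ⟨x, h1, h2⟩ := Set.not_subset.1 h
      exact (evI _ (show x ∈ PosInfo I from hI ▸ h1)).mono fun n a _ => ⟨x, a, h2⟩
  have i2 : ∀ᶠ n in atTop, ∀ s ∈ S, some (s, false) ∈ seg I n := (eventually_all_finset S).2 fun s hs => evI _ (hS hs)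
  filter_upwards [i1, i2] with n i1 i2
  set σ := seg I n
  have a : ∀ t, ∀ e < y, Sub T σ t e → L ⊆ W e := fun t e he h => by
    by_contra hc
    obtain ⟨x, h1, h2⟩ := i1 e he hc
    exact h2 ((hW _ _).2 ⟨t, (sub_iff T).1 h x h1⟩)
  have b : ∀ᶠ t in atTop, ∀ e < y, L ⊆ W e → Sub T σ t e := by
    have : ∀ᶠ t in atTop, ∀ d ∈ σ, ∀ e < y, val d ∈ W e → T t e (val d) :=
      (eventually_all_finite σ.finite_toSet).2 fun d _ => evw _
    refine this.mono fun t h e he hl d hd e1 => h d hd e he (hl ?_)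
    rw [← hI]; exact (ms hd).imp fun m h => h.trans e1
  have c : ∀ᶠ t in atTop, ∀ e < y, Bad T σ t e := by
    refine ((eventually_all_finset S).2 fun s _ => evw s).mono fun t h e he => ?_
    obtain ⟨s, hs, h1⟩ := S3 e he
    refine (bad_iff T).2 ⟨s, i2 s hs, fun e' h' h2 => ?_⟩
    have h' := List.mem_range.1 h'
    exact h s hs e' (by omega) (h1 e' h' (a t e' (by omega) h2))
  obtain ⟨t₀, h₀⟩ := eventually_atTop.1 (b.and (c.and (eventually_ge_atTop y)))
  refine (Set.finite_Iio t₀).subset fun z hz => ?_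
  rcases hz with ⟨⟨t, h1, h2⟩, h3⟩ | ⟨h1, h2⟩
  · by_contra hc
    have := h₀ t (le_trans (not_lt.1 hc) h1)
    exact h3 (hy z fun e he hl => (hW _ _).2 ⟨t, h2 e (List.mem_range.2 (by omega)) (this.2.1 e he) (this.1 e he hl)⟩)
  · obtain ⟨t, t1, t2, t3⟩ := (b.and ((evw z).and (eventually_ge_atTop z))).exists
    refine (h2 ⟨t, t3, fun e _ hb hs => ?_⟩).elim
    rcases lt_or_ge e y with he | he
    · exact t2 e he (a t e he hs h1)
    · obtain ⟨x, x1, x2⟩ := (bad_iff T).1 hb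
      exact (hN (ms x1) (hy x fun e' h' hl =>
        (hW _ _).2 ⟨t, x2 e' (List.mem_range.2 (by omega)) (t1 e' h' hl)⟩)).elim

theorem result (φ : ℕ → ℕ →. ℕ) (hφ : Acceptable φ) (i : ℕ) (hi : 1 ≤ i) :
    ∃ M : List Datum → ℕ, Computable M ∧ ∀ L : Set ℕ, REPred (· ∈ L) → Identifies φ i M L := by
  classical
  obtain ⟨u, hu⟩ := Code.exists_code.1 (Partrec₂.unpaired'.2 hφ.1)
  let T : ℕ → ℕ → ℕ → Prop := fun t e x => (Code.evaln t u (Nat.pair e x)).isSome = true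
  have hT : PrimrecPred fun p : ℕ × ℕ × ℕ => T p.1 p.2.1 p.2.2 := by
    open Primrec in
    exact Primrec.eq.comp (option_isSome.comp (Code.primrec_evaln.comp ((fst.pair (const u)).pair
      (Primrec₂.natPair.comp (fst.comp snd) (snd.comp snd))))) (const true)
  have hW : ∀ e x, x ∈ (φ e).Dom ↔ ∃ t, T t e x := fun e x => by
    have : φ e x = u.eval (Nat.pair e x) := by simp [hu, Nat.unpaired]
    simp only [PFun.mem_dom, this, Code.evaln_complete, T, Option.isSome_iff_exists]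
    exact exists_comm
  have mono : ∀ e x s t, s ≤ t → T s e x → T t e x := fun e x s t h a => by
    obtain ⟨v, hv⟩ := Option.isSome_iff_exists.1 a
    exact Option.isSome_iff_exists.2 ⟨v, Code.evaln_mono h hv⟩
  let ψ : ℕ → ℕ →. ℕ := fun c z =>
    Nat.rfind fun t => Part.some (decide (Q T ((Encodable.decode c : Option (List Datum)).getD []) z t))
  have hψ : Partrec₂ ψ := by
    refine Partrec.rfind (Computable₂.partrec₂ (Primrec₂.to_comp (PrimrecPred.decide ?_)))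
    open Primrec in
    exact (Q_pr T hT).comp (((option_getD.comp (Primrec.decode.comp (fst.comp fst)) (const [])).pair
      (snd.comp fst)).pair snd)
  obtain ⟨g, g1, g2⟩ := hφ.2 ψ hψ
  refine ⟨fun σ => g (Encodable.encode σ), g1.comp Computable.encode, fun L hL => ?_⟩
  obtain ⟨e₀, rfl⟩ : ∃ e, (φ e).Dom = L := by
    obtain ⟨f, -, hf⟩ := hφ.2 (fun _ x => (Part.assert (x ∈ L) fun _ => Part.some ()).map fun _ => 0)
      ((hL.comp Computable.snd).map (Computable.const 0).to₂)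
    exact ⟨f 0, by ext x; simp [hf, PFun.Dom, Part.assert]⟩
  obtain ⟨S, S1, S2, S3⟩ := core T hW mono e₀
  refine ⟨S, S1, S2.trans hi, fun I h1 h2 h3 => (S3 I h1 h2 h3).mono fun n hn => ?_⟩
  convert hn using 2
  ext z
  simp [g2, ψ, PFun.Dom, Nat.rfind_dom]

end Pool.Agent.Results.MP_1b3940_lc.Yes
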